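import Pool.Agent.Y667.RZ.Stm

/-!
# Project RZ: the groups `VG M L`
-/

set_option autoImplicit false

namespace Pool.Agent.Y448.RZ

open Finset Pool.Agent.W262.RK Pool.Agent.W307.RT Pool.Agent.W307.RS Pool.Agent.W307.SE
  Pool.Agent.W307.FK Pool.Agent.W214.RK2 Pool.Agent.Y667.RP Pool.Agent.Y667.RZ

/-- local conditions -/
abbrev LC : Type := ℕ → Bool → Bool → Bool → Bool → Prop

/-- isotropic local condition at `q` -/
def Iso (q : ℕ) (P : Bool → Bool → Bool → Bool → Prop) : Prop :=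
  ∀ v w h g v' w' h' g', P v w h g → P v' w' h' g' →
    xor (hb (sg0 q (-1)) v h w' g') (hb (sg0 q (-1)) v' h' w g) = false

lemma dv_one {p : ℕ} (hp : p.Prime) : dv p 1 = false := by
  unfold dv
  rw [decide_eq_false_iff_not]
  intro h
  have h' : p ∣ 1 := Int.natCast_dvd_natCast.1 (by simpa using h)
  exact hp.one_lt.ne' (Nat.dvd_one.1 h')

lemma sgn_one (p : ℕ) : sgn p 1 = false := by
  unfold sgn sg0
  simp

lemma VG_one {M : ℕ} {L : LC} (hX : ∀ q ∈ M.primeFactors, XC (L q)) :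
    ((1, 1) : ℤ × ℤ) ∈ VG M L := by
  refine ⟨squarefree_one, squarefree_one, one_pos, by norm_num, ?_, ?_, ?_⟩
  · intro q hq h
    exact absurd (Int.natCast_dvd_natCast.1 (by simpa using h)) (fun h' : q ∣ 1 =>
      hq.one_lt.ne' (Nat.dvd_one.1 h'))
  · intro q hq h
    exact absurd (Int.natCast_dvd_natCast.1 (by simpa using h)) (fun h' : q ∣ 1 =>
      hq.one_lt.ne' (Nat.dvd_one.1 h'))
  · intro p hp
    have hpp := Nat.prime_of_mem_primeFactors hp
    show L p (dv p 1) (dv p 1) (sgn p 1) (sgn p 1)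
    rw [dv_one hpp, sgn_one]
    exact (hX p hp).1

lemma VG_mul {M : ℕ} {L : LC} (hX : ∀ q ∈ M.primeFactors, XC (L q)) {d d' : ℤ × ℤ}
    (hd : d ∈ VG M L) (hd' : d' ∈ VG M L) : sp2 d d' ∈ VG M L := by
  obtain ⟨h1, h2, h3, h4, h5, h6, h7⟩ := hd
  obtain ⟨k1, k2, k3, k4, k5, k6, k7⟩ := hd'
  refine ⟨sp_sqf h1 k1, sp_sqf h2 k2, sp_pos h1 h3 k3, sp_mod h1 h4 k4, ?_, ?_, ?_⟩
  · intro q hq h
    rcases sp_dvd h1 hq h with h | h
    · exact h5 q hq h
    · exact k5 q hq h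
  · intro q hq h
    rcases sp_dvd h2 hq h with h | h
    · exact h6 q hq h
    · exact k6 q hq h
  · intro p hp
    have hpp := Nat.prime_of_mem_primeFactors hp
    obtain ⟨e1, e2⟩ := sp_dv h1 k1 p hpp
    obtain ⟨e3, e4⟩ := sp_dv h2 k2 p hpp
    show L p (dv p (sp d.1 d'.1)) (dv p (sp d.2 d'.2)) (sgn p (sp d.1 d'.1))
      (sgn p (sp d.2 d'.2))
    rw [e1, e2, e3, e4]
    exact (hX p hp).2 _ _ _ _ _ _ _ _ (h7 p hp) (k7 p hp)

/-- the product of the unramified pair -/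
lemma sp_restrict {M p : ℕ} {L L1 L2 : LC} (hM : M ≠ 0) (hp : p.Prime) (hp2 : p ≠ 2)
    (hX : ∀ q ∈ M.primeFactors, XC (L q))
    (h1 : ∀ q ∈ M.primeFactors, ∀ v w h g, L1 q v w h g → L q v w h g)
    (h2 : ∀ q ∈ M.primeFactors, ∀ v w h g, L2 q v w h g → L q v w h g) {d e : ℤ × ℤ}
    (hd : d ∈ VG (M * p) L1) (he : e ∈ VG (M * p) L2) (e1 : dv p d.1 = dv p e.1)
    (e2 : dv p d.2 = dv p e.2) : sp2 d e ∈ VG M L := by
  obtain ⟨d1, d2, d3, d4, d5, d6, d7⟩ := hd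
  obtain ⟨k1, k2, k3, k4, k5, k6, k7⟩ := he
  have n1 : dv p (sp d.1 e.1) = false := by
    rw [(sp_dv d1 k1 p hp).1, e1, Bool.xor_self]
  have n2 : dv p (sp d.2 e.2) = false := by
    rw [(sp_dv d2 k2 p hp).1, e2, Bool.xor_self]
  unfold dv at n1 n2
  rw [decide_eq_false_iff_not] at n1 n2
  refine ⟨sp_sqf d1 k1, sp_sqf d2 k2, sp_pos d1 d3 k3, sp_mod d1 d4 k4, ?_, ?_, ?_⟩
  · intro q hq h
    have h3 : q ∣ M * p := by
      rcases sp_dvd d1 hq h with h' | h'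
      · exact d5 q hq h'
      · exact k5 q hq h'
    rcases (hq.dvd_mul).1 h3 with h' | h'
    · exact h'
    · have : q = p := (Nat.prime_dvd_prime_iff_eq hq hp).1 h'
      subst this
      exact absurd h n1
  · intro q hq h
    have h3 : q ∣ 2 * (M * p) := by
      rcases sp_dvd d2 hq h with h' | h'
      · exact d6 q hq h'
      · exact k6 q hq h'
    rw [← mul_assoc] at h3
    rcases (hq.dvd_mul).1 h3 with h' | h'
    · exact h'
    · have : q = p := (Nat.prime_dvd_prime_iff_eq hq hp).1 h'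
      subst this
      exact absurd h n2
  · intro q hq
    have hqp := Nat.prime_of_mem_primeFactors hq
    have hq' : q ∈ (M * p).primeFactors := by
      rw [Nat.mem_primeFactors] at hq ⊢
      exact ⟨hq.1, hq.2.1.mul_right _, mul_ne_zero hM hp.ne_zero⟩
    show L q (dv q (sp d.1 e.1)) (dv q (sp d.2 e.2)) (sgn q (sp d.1 e.1))
      (sgn q (sp d.2 e.2))
    obtain ⟨a1, a2⟩ := sp_dv d1 k1 q hqp
    obtain ⟨a3, a4⟩ := sp_dv d2 k2 q hqp
    rw [a1, a2, a3, a4]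
    exact (hX q hq).2 _ _ _ _ _ _ _ _ (h1 q hq _ _ _ _ (d7 q hq')) (h2 q hq _ _ _ _ (k7 q hq'))

lemma VG_restrict {M p : ℕ} {L L1 : LC} (hM : M ≠ 0) (hp : p.Prime)
    (h1 : ∀ q ∈ M.primeFactors, ∀ v w h g, L1 q v w h g → L q v w h g) {d : ℤ × ℤ}
    (hd : d ∈ VG (M * p) L1) (e1 : dv p d.1 = false) (e2 : dv p d.2 = false) : d ∈ VG M L := by
  obtain ⟨d1, d2, d3, d4, d5, d6, d7⟩ := hd
  unfold dv at e1 e2
  rw [decide_eq_false_iff_not] at e1 e2
  refine ⟨d1, d2, d3, d4, ?_, ?_, ?_⟩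
  · intro q hq h
    rcases (hq.dvd_mul).1 (d5 q hq h) with h' | h'
    · exact h'
    · have : q = p := (Nat.prime_dvd_prime_iff_eq hq hp).1 h'
      subst this
      exact absurd h e1
  · intro q hq h
    have h3 := d6 q hq h
    rw [← mul_assoc] at h3
    rcases (hq.dvd_mul).1 h3 with h' | h'
    · exact h'
    · have : q = p := (Nat.prime_dvd_prime_iff_eq hq hp).1 h'
      subst this
      exact absurd h e2
  · intro q hq
    refine h1 q hq _ _ _ _ (d7 q ?_)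
    rw [Nat.mem_primeFactors] at hq ⊢
    exact ⟨hq.1, hq.2.1.mul_right _, mul_ne_zero hM hp.ne_zero⟩

/-- the product formula for two classes -/
lemma prodS {d e : ℤ × ℤ} (d1 : Squarefree d.1) (d2 : Squarefree d.2) (d3 : 0 < d.1)
    (d4 : d.1 % 8 = 1) (k1 : Squarefree e.1) (k2 : Squarefree e.2) (k3 : 0 < e.1)
    (k4 : e.1 % 8 = 1) (S : Finset ℕ) (hS : ∀ q ∈ S, q.Prime ∧ q ≠ 2)
    (hd : ∀ q : ℕ, q.Prime → q ≠ 2 → (q : ℤ) ∣ d.1 ∨ (q : ℤ) ∣ d.2 → q ∈ S)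
    (he : ∀ q : ℕ, q.Prime → q ≠ 2 → (q : ℤ) ∣ e.1 ∨ (q : ℤ) ∣ e.2 → q ∈ S) :
    ∏ q ∈ S, sg (xor (hsb q d.1 e.2) (hsb q e.1 d.2)) = 1 := by
  simp only [sg_xor]
  rw [prod_mul_distrib, prodf d1 d3 d4 k2 S hS (fun q hq hq2 h => h.elim
    (fun h => hd q hq hq2 (Or.inl h)) (fun h => he q hq hq2 (Or.inr h))),
    prodf k1 k3 k4 d2 S hS (fun q hq hq2 h => h.elim
    (fun h => he q hq hq2 (Or.inl h)) (fun h => hd q hq hq2 (Or.inr h))), one_mul]

lemma odd_pf {M : ℕ} (hodd : Odd M) {q : ℕ} (hq : q ∈ M.primeFactors) : q.Prime ∧ q ≠ 2 := by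
  refine ⟨Nat.prime_of_mem_primeFactors hq, ?_⟩
  rintro rfl
  exact (Nat.not_even_iff_odd.2 hodd) (even_iff_two_dvd.2 (Nat.dvd_of_mem_primeFactors hq))

lemma two_dvd_elim {q m : ℕ} (hq : q.Prime) (hq2 : q ≠ 2) (h : q ∣ 2 * m) : q ∣ m := by
  rcases (hq.dvd_mul).1 h with h | h
  · exact absurd ((Nat.prime_dvd_prime_iff_eq hq Nat.prime_two).1 h) hq2
  · exact h

/-- the pairing of two classes at the new primes -/
lemma pairG {M p : ℕ} {L L1 L2 : LC} (hM : M ≠ 0) (hodd : Odd M) (hp : p.Prime) (hp2 : p ≠ 2)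
    (hI : ∀ q ∈ M.primeFactors, Iso q (L q)) (_ : ¬ p ∣ M)
    (h1 : ∀ q ∈ M.primeFactors, ∀ v w h g, L1 q v w h g → L q v w h g)
    (h2 : ∀ q ∈ M.primeFactors, ∀ v w h g, L2 q v w h g → L q v w h g) {d e : ℤ × ℤ}
    (hd : d ∈ VG (M * p) L1) (he : e ∈ VG (M * p) L2) :
    xor (hsb p d.1 e.2) (hsb p e.1 d.2) = false := by
  obtain ⟨d1, d2, d3, d4, d5, d6, d7⟩ := hd
  obtain ⟨k1, k2, k3, k4, k5, k6, k7⟩ := he
  have hpo : Odd p := hp.odd_of_ne_two hp2
  have ho : Odd (M * p) := hodd.mul hpo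
  have hne : M * p ≠ 0 := mul_ne_zero hM hp.ne_zero
  have P := prodS d1 d2 d3 d4 k1 k2 k3 k4 (M * p).primeFactors (fun q hq => odd_pf ho hq)
    (fun q hq hq2 h => Nat.mem_primeFactors.2 ⟨hq, h.elim (fun h => d5 q hq h)
      (fun h => two_dvd_elim hq hq2 (d6 q hq h)), hne⟩)
    (fun q hq hq2 h => Nat.mem_primeFactors.2 ⟨hq, h.elim (fun h => k5 q hq h)
      (fun h => two_dvd_elim hq hq2 (k6 q hq h)), hne⟩)
  have hpm : p ∈ (M * p).primeFactors := Nat.mem_primeFactors.2 ⟨hp, dvd_mul_left _ _, hne⟩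
  have hrest : ∀ q ∈ (M * p).primeFactors, q ≠ p →
      sg (xor (hsb q d.1 e.2) (hsb q e.1 d.2)) = 1 := by
    intro q hq hqp
    have hqp' := Nat.prime_of_mem_primeFactors hq
    have hqM : q ∈ M.primeFactors := by
      rcases (hqp'.dvd_mul).1 (Nat.dvd_of_mem_primeFactors hq) with h | h
      · exact Nat.mem_primeFactors.2 ⟨hqp', h, hM⟩
      · exact absurd ((Nat.prime_dvd_prime_iff_eq hqp' hp).1 h) hqp
    rw [hsb_eq, hsb_eq, hI q hqM _ _ _ _ _ _ _ _ (h1 q hqM _ _ _ _ (d7 q hq))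
      (h2 q hqM _ _ _ _ (k7 q hq))]
    rfl
  rw [← mul_prod_erase _ _ hpm, prod_eq_one (fun q hq => hrest q (mem_of_mem_erase hq)
    (ne_of_mem_erase hq)), mul_one] at P
  exact sg_one P

/-- a class at the old level is a class at the new level (for the pairing only) -/
lemma VG_lift {M p : ℕ} {L : LC} {w : ℤ × ℤ} (hw : w ∈ VG M L) :
    w ∈ VG (M * p) (fun q v w h g => q ∣ M → q.Prime → M ≠ 0 → L q v w h g) := by
  obtain ⟨d1, d2, d3, d4, d5, d6, d7⟩ := hw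
  refine ⟨d1, d2, d3, d4, fun q hq h => (d5 q hq h).mul_right _, fun q hq h => ?_,
    fun q _ h1 h2 h3 => d7 q (Nat.mem_primeFactors.2 ⟨h2, h1, h3⟩)⟩
  rw [← mul_assoc]
  exact (d6 q hq h).mul_right _

/-- a prime with a nontrivial symbol kills at least half of the classes -/
theorem KILLG {M p : ℕ} {L L1 : LC} {j : Fin 3} {neg : Bool} {w : ℤ × ℤ} (hM : M ≠ 0)
    (hodd : Odd M) (hp : p.Prime) (hp2 : p ≠ 2) (hpM : ¬ p ∣ M)
    (hX : ∀ q ∈ M.primeFactors, XC (L q)) (hI : ∀ q ∈ M.primeFactors, Iso q (L q))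
    (h1 : ∀ q ∈ M.primeFactors, ∀ v w h g, L1 q v w h g → L q v w h g)
    (hnew : ∀ v w h g, L1 p v w h g → LR j neg v w h g) (hw : w ∈ VG M L)
    (hphi : phi j (sgn p w.1) (sgn p w.2) = true) (hfin : (VG M L).Finite) :
    VG (M * p) L1 ⊆ VG M L ∧ 2 * (VG (M * p) L1).ncard ≤ (VG M L).ncard := by
  classical
  have hmem : p ∈ (M * p).primeFactors :=
    Nat.mem_primeFactors.2 ⟨hp, dvd_mul_left _ _, mul_ne_zero hM hp.ne_zero⟩
  have hwp1 : dv p w.1 = false := by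
    unfold dv
    rw [decide_eq_false_iff_not]
    exact fun h => hpM (hw.2.2.2.2.1 p hp h)
  have hwp2 : dv p w.2 = false := by
    unfold dv
    rw [decide_eq_false_iff_not]
    intro h
    exact hpM (two_dvd_elim hp hp2 (hw.2.2.2.2.2.1 p hp h))
  have hnew : ∀ d ∈ VG (M * p) L1,
      (dv p d.1 = false ∧ dv p d.2 = false) ∧ phi j (sgn p d.1) (sgn p d.2) = false := by
    intro d hd
    have h3 := pairG hM hodd hp hp2 hI hpM (fun q hq v w h g hL => hL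
      (Nat.dvd_of_mem_primeFactors hq) (Nat.prime_of_mem_primeFactors hq) hM) h1
      (VG_lift hw) hd
    have h2 : LR j neg (dv p d.1) (dv p d.2) (sgn p d.1) (sgn p d.2) :=
      hnew _ _ _ _ (hd.2.2.2.2.2.2 p hmem)
    rw [hsb_eq, hsb_eq, hwp1, hwp2] at h3
    have h4 := isoN hphi h2 h3
    refine ⟨h4, ?_⟩
    rw [LR_phi h2, h4.1, h4.2]
    rfl
  have hsub : VG (M * p) L1 ⊆ VG M L := by
    intro d hd
    exact VG_restrict hM hp h1 hd (hnew d hd).1.1 (hnew d hd).1.2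
  refine ⟨hsub, ?_⟩
  have hfin' : (VG (M * p) L1).Finite := hfin.subset hsub
  set A' := VG (M * p) L1 with hA'
  have hinj : Set.InjOn (sp2 w) A' := by
    intro d hd e he h
    have hd' := hsub hd
    have he' := hsub he
    unfold sp2 at h
    rw [Prod.mk.injEq] at h
    exact Prod.ext (sp_inj hw.1 hd'.1 he'.1 h.1) (sp_inj hw.2.1 hd'.2.1 he'.2.1 h.2)
  have hdisj : Disjoint A' (sp2 w '' A') := by
    rw [Set.disjoint_left]
    rintro x hx ⟨d, hd, rfl⟩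
    have h1 := (hnew _ hx).2
    have hd' := hsub hd
    have e1 := (sp_dv hw.1 hd'.1 p hp).2
    have e2 := (sp_dv hw.2.1 hd'.2.1 p hp).2
    unfold sp2 at h1
    simp only [e1, e2] at h1
    rw [phi_sp, hphi, (hnew d hd).2] at h1
    exact absurd h1 (by decide)
  have hunion : A' ∪ sp2 w '' A' ⊆ VG M L := by
    rintro x (hx | ⟨d, hd, rfl⟩)
    · exact hsub hx
    · exact VG_mul hX hw (hsub hd)
  have h1 := Set.ncard_le_ncard hunion hfin
  rw [Set.ncard_union_eq hdisj hfin' (hfin'.image _), hinj.ncard_image] at h1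
  omega

/-- the pattern of the ramification -/
lemma LR_pat {j : Fin 3} {n n' v w h g v' w' h' g' : Bool} (h1 : LR j n v w h g)
    (h2 : LR j n' v' w' h' g') (h3 : ¬ (v = false ∧ w = false)) (h4 : ¬ (v' = false ∧ w' = false)) :
    v = v' ∧ w = w' := by
  unfold LR at h1 h2
  split_ifs at h1 h2 with h5 h6
  · obtain ⟨rfl, -⟩ := h1
    obtain ⟨rfl, -⟩ := h2
    revert v v'; decide
  · obtain ⟨rfl, -⟩ := h1
    obtain ⟨rfl, -⟩ := h2
    revert v v'; decide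
  · obtain ⟨rfl, -⟩ := h1
    obtain ⟨rfl, -⟩ := h2
    revert w w'; decide

/-- ramified classes for different signs do not pair to zero -/
lemma LR_opp {j : Fin 3} {e n v w h g v' w' h' g' : Bool} (h1 : LR j n v w h g)
    (h2 : LR j (!n) v' w' h' g') (h3 : ¬ (v = false ∧ w = false))
    (h4 : ¬ (v' = false ∧ w' = false)) : xor (hb e v h w' g') (hb e v' h' w g) = true := by
  unfold LR at h1 h2
  split_ifs at h1 h2 with h5 h6
  · obtain ⟨rfl, h1⟩ := h1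
    obtain ⟨rfl, h2⟩ := h2
    revert h1 h2 h3 h4
    revert e n v h g v' h' g'
    decide
  · obtain ⟨rfl, h1⟩ := h1
    obtain ⟨rfl, h2⟩ := h2
    revert h1 h2 h3 h4
    revert e n v h g v' h' g'
    decide
  · obtain ⟨rfl, h1⟩ := h1
    obtain ⟨rfl, h2⟩ := h2
    revert h1 h2 h3 h4
    revert e n w h g w' h' g'
    decide

/-- for at least one of the two signs there is no new class -/
theorem NG1 {M p : ℕ} {L L1 L2 : LC} {j : Fin 3} {neg : Bool} (hM : M ≠ 0)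
    (hodd : Odd M) (hp : p.Prime) (hp2 : p ≠ 2) (hpM : ¬ p ∣ M)
    (hI : ∀ q ∈ M.primeFactors, Iso q (L q))
    (h1 : ∀ q ∈ M.primeFactors, ∀ v w h g, L1 q v w h g → L q v w h g)
    (h2 : ∀ q ∈ M.primeFactors, ∀ v w h g, L2 q v w h g → L q v w h g)
    (hn1 : ∀ v w h g, L1 p v w h g → LR j neg v w h g)
    (hn2 : ∀ v w h g, L2 p v w h g → LR j (!neg) v w h g) :
    VG (M * p) L1 ⊆ VG M L ∨ VG (M * p) L2 ⊆ VG M L := by
  have hmem : p ∈ (M * p).primeFactors :=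
    Nat.mem_primeFactors.2 ⟨hp, dvd_mul_left _ _, mul_ne_zero hM hp.ne_zero⟩
  by_contra hcon
  rw [not_or, Set.not_subset, Set.not_subset] at hcon
  obtain ⟨⟨d, hd, hd'⟩, ⟨e, he, he'⟩⟩ := hcon
  have r1 : ¬ (dv p d.1 = false ∧ dv p d.2 = false) :=
    fun h => hd' (VG_restrict hM hp h1 hd h.1 h.2)
  have r2 : ¬ (dv p e.1 = false ∧ dv p e.2 = false) :=
    fun h => he' (VG_restrict hM hp h2 he h.1 h.2)
  have h3 := pairG hM hodd hp hp2 hI hpM h1 h2 hd he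
  rw [hsb_eq, hsb_eq, LR_opp (hn1 _ _ _ _ (hd.2.2.2.2.2.2 p hmem))
    (hn2 _ _ _ _ (he.2.2.2.2.2.2 p hmem)) r1 r2] at h3
  exact absurd h3 (by decide)

/-- a new prime at most doubles the number of the classes -/
theorem NG2 {M p : ℕ} {L L1 : LC} {j : Fin 3} {neg : Bool} (hM : M ≠ 0)
    (hp : p.Prime) (hp2 : p ≠ 2) (hX : ∀ q ∈ M.primeFactors, XC (L q))
    (h1 : ∀ q ∈ M.primeFactors, ∀ v w h g, L1 q v w h g → L q v w h g)
    (hn1 : ∀ v w h g, L1 p v w h g → LR j neg v w h g) (hfin : (VG M L).Finite) :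
    (VG (M * p) L1).ncard ≤ 2 * (VG M L).ncard := by
  classical
  have hmem : p ∈ (M * p).primeFactors :=
    Nat.mem_primeFactors.2 ⟨hp, dvd_mul_left _ _, mul_ne_zero hM hp.ne_zero⟩
  by_cases hall : VG (M * p) L1 ⊆ VG M L
  · have := Set.ncard_le_ncard hall hfin
    omega
  · rw [Set.not_subset] at hall
    obtain ⟨d, hd, hd'⟩ := hall
    have r1 : ¬ (dv p d.1 = false ∧ dv p d.2 = false) :=
      fun h => hd' (VG_restrict hM hp h1 hd h.1 h.2)
    have hmap : ∀ e ∈ VG (M * p) L1, e ∉ VG M L → sp2 d e ∈ VG M L := by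
      intro e he he'
      have r2 : ¬ (dv p e.1 = false ∧ dv p e.2 = false) :=
        fun h => he' (VG_restrict hM hp h1 he h.1 h.2)
      obtain ⟨a, b⟩ := LR_pat (hn1 _ _ _ _ (hd.2.2.2.2.2.2 p hmem))
        (hn1 _ _ _ _ (he.2.2.2.2.2.2 p hmem)) r1 r2
      exact sp_restrict hM hp hp2 hX h1 h1 hd he a b
    have hinj : Set.InjOn (sp2 d) (VG (M * p) L1 \ VG M L) := by
      intro x hx y hy h
      unfold sp2 at h
      rw [Prod.mk.injEq] at h
      exact Prod.ext (sp_inj hd.1 hx.1.1 hy.1.1 h.1) (sp_inj hd.2.1 hx.1.2.1 hy.1.2.1 h.2)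
    have hA : (VG (M * p) L1 \ VG M L).Finite := by
      apply Set.Finite.of_finite_image _ hinj
      apply hfin.subset
      rintro _ ⟨x, hx, rfl⟩
      exact hmap x hx.1 hx.2
    have hB : (VG (M * p) L1 \ VG M L).ncard ≤ (VG M L).ncard := by
      rw [← hinj.ncard_image]
      apply Set.ncard_le_ncard _ hfin
      rintro _ ⟨x, hx, rfl⟩
      exact hmap x hx.1 hx.2
    have hC : VG (M * p) L1 ⊆ (VG (M * p) L1 \ VG M L) ∪ VG M L := by
      intro x hx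
      by_cases h : x ∈ VG M L
      · exact Or.inr h
      · exact Or.inl ⟨hx, h⟩
    have hD := Set.ncard_le_ncard hC (hA.union hfin)
    have hE := Set.ncard_union_le (VG (M * p) L1 \ VG M L) (VG M L)
    omega

end Pool.Agent.Y448.RZ
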