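import Pool.Agent.Y448.RZ.Loc

/-!
# Project RZ: TYPE
-/

set_option autoImplicit false

namespace Pool.Agent.Y448.RZ

open Finset Pool.Agent.W262.RK Pool.Agent.W307.RT Pool.Agent.W307.RS Pool.Agent.W307.SE
  Pool.Agent.W307.FK Pool.Agent.W214.RK2 Pool.Agent.Y667.RP Pool.Agent.Y667.RZ

open NumberTheorySymbols

/-- `(x.1, q x.2)` satisfies the local conditions -/
def SolT (M : ℕ) (L : LC) (q : ℕ) (x : ℤ × ℤ) : Prop :=
  Squarefree x.1 ∧ Squarefree x.2 ∧ 0 < x.1 ∧ x.1 % 8 = 1 ∧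
    (∀ r : ℕ, r.Prime → (r : ℤ) ∣ x.1 → r ∣ M) ∧
    (∀ r : ℕ, r.Prime → (r : ℤ) ∣ x.2 → r ∣ 2 * M) ∧
    ∀ p ∈ M.primeFactors, L p (dv p x.1) (dv p x.2) (sgn p x.1) (xor (sgn p x.2) (sg0 p q))

lemma dv_false {p : ℕ} {x : ℤ} (h : ¬ (p : ℤ) ∣ x) : dv p x = false := by
  unfold dv
  rw [decide_eq_false_iff_not]
  exact h

lemma dv_true {p : ℕ} {x : ℤ} (h : (p : ℤ) ∣ x) : dv p x = true := by
  unfold dv
  rw [decide_eq_true_iff]
  exact h

lemma ndvd_prime {p q : ℕ} (hp : p.Prime) (hq : q.Prime) (hpq : p ≠ q) : ¬ (p : ℤ) ∣ (q : ℤ) := by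
  rw [Int.natCast_dvd_natCast]
  exact fun h => hpq ((Nat.prime_dvd_prime_iff_eq hp hq).1 h)

lemma sq_prime {q : ℕ} (hq : q.Prime) : Squarefree (q : ℤ) :=
  Int.squarefree_natCast.2 hq.squarefree

/-- multiplication by a prime -/
lemma mul_q {p q : ℕ} (hp : p.Prime) (hq : q.Prime) (hpq : p ≠ q) {x : ℤ} (hx : Squarefree x)
    (hqx : Squarefree ((q : ℤ) * x)) :
    dv p (q * x) = dv p x ∧ sgn p (q * x) = xor (sgn p x) (sg0 p q) := by
  obtain ⟨h1, h2⟩ := key p hp x q (q * x) hx (sq_prime hq) hqx ⟨q * x, by ring⟩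
  have h3 := ndvd_prime hp hq hpq
  rw [dv_false h3, Bool.xor_false] at h1
  rw [sgn_ndvd hp h3] at h2
  exact ⟨h1, h2⟩

lemma sq_mul_q {q : ℕ} (hq : q.Prime) {x : ℤ} (hx : Squarefree x) (h : ¬ (q : ℤ) ∣ x) :
    Squarefree ((q : ℤ) * x) := by
  rw [squarefree_mul_iff]
  refine ⟨?_, sq_prime hq, hx⟩
  exact (((Nat.prime_iff_prime_int.1 hq).coprime_iff_not_dvd).2 h).isRelPrime

/-- a ramified class gives a solution -/
lemma sol_of_ram {M q : ℕ} {L L1 : LC} {neg : Bool} (hM : M ≠ 0) (hq : q.Prime)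
    (hqM : ¬ q ∣ M) (h1 : ∀ p ∈ M.primeFactors, ∀ v w h g, L1 p v w h g → L p v w h g)
    (hn1 : ∀ v w h g, L1 q v w h g → LR 2 neg v w h g) {d : ℤ × ℤ} (hd : d ∈ VG (M * q) L1)
    (hram : ¬ (dv q d.1 = false ∧ dv q d.2 = false)) :
    ∃ x, SolT M L q x ∧ sgn q x.1 = neg := by
  have hmem : q ∈ (M * q).primeFactors :=
    Nat.mem_primeFactors.2 ⟨hq, dvd_mul_left _ _, mul_ne_zero hM hq.ne_zero⟩
  obtain ⟨d1, d2, d3, d4, d5, d6, d7⟩ := hd
  have hL := hn1 _ _ _ _ (d7 q hmem)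
  unfold LR at hL
  rw [if_neg (by decide), if_neg (by decide)] at hL
  obtain ⟨hv, hh⟩ := hL
  have hw : dv q d.2 = true := by
    cases h : dv q d.2
    · exact absurd ⟨hv, h⟩ hram
    · rfl
  rw [hw, Bool.true_and] at hh
  have hq1 : ¬ (q : ℤ) ∣ d.1 := by
    intro h
    rw [dv_true h] at hv
    exact absurd hv (by decide)
  have hq2 : (q : ℤ) ∣ d.2 := by
    by_contra h
    rw [dv_false h] at hw
    exact absurd hw (by decide)
  obtain ⟨x2, hx2⟩ := hq2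
  have hqi := Nat.prime_iff_prime_int.1 hq
  have hx2s : Squarefree x2 := d2.squarefree_of_dvd ⟨q, by rw [hx2, mul_comm]⟩
  have hqx2 : ¬ (q : ℤ) ∣ x2 := by
    rintro ⟨k, hk⟩
    have : (q : ℤ) * q ∣ d.2 := ⟨k, by rw [hx2, hk]; ring⟩
    exact hqi.not_isUnit (d2 q this)
  refine ⟨(d.1, x2), ⟨d1, hx2s, d3, d4, ?_, ?_, ?_⟩, hh⟩
  · intro r hr h
    rcases (hr.dvd_mul).1 (d5 r hr h) with h' | h'
    · exact h'
    · have : r = q := (Nat.prime_dvd_prime_iff_eq hr hq).1 h'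
      subst this
      exact absurd h hq1
  · intro r hr h
    have h3 := d6 r hr (by rw [hx2]; exact dvd_mul_of_dvd_right h _)
    rw [← mul_assoc] at h3
    rcases (hr.dvd_mul).1 h3 with h' | h'
    · exact h'
    · have : r = q := (Nat.prime_dvd_prime_iff_eq hr hq).1 h'
      subst this
      exact absurd h hqx2
  · intro p hp
    have hpp := Nat.prime_of_mem_primeFactors hp
    have hpq : p ≠ q := by
      rintro rfl
      exact hqM (Nat.dvd_of_mem_primeFactors hp)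
    have hp' : p ∈ (M * q).primeFactors := by
      rw [Nat.mem_primeFactors] at hp ⊢
      exact ⟨hp.1, hp.2.1.mul_right _, mul_ne_zero hM hq.ne_zero⟩
    have h3 := h1 p hp _ _ _ _ (d7 p hp')
    rw [hx2] at h3 d2
    obtain ⟨e1, e2⟩ := mul_q hpp hq hpq hx2s d2
    rw [e1, e2] at h3
    exact h3

/-- the product of three solutions -/
lemma sol_mul3 {M q1 q2 q3 : ℕ} {L : LC} (hX : ∀ p ∈ M.primeFactors, XC (L p))
    (hq : ∀ p ∈ M.primeFactors, xor (xor (sg0 p q1) (sg0 p q2)) (sg0 p q3) = false)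
    {x y z : ℤ × ℤ} (hx : SolT M L q1 x) (hy : SolT M L q2 y) (hz : SolT M L q3 z) :
    sp2 (sp2 x y) z ∈ VG M L := by
  obtain ⟨x1, x2, x3, x4, x5, x6, x7⟩ := hx
  obtain ⟨y1, y2, y3, y4, y5, y6, y7⟩ := hy
  obtain ⟨z1, z2, z3, z4, z5, z6, z7⟩ := hz
  have a1 := sp_sqf x1 y1
  have a2 := sp_sqf x2 y2
  refine ⟨sp_sqf a1 z1, sp_sqf a2 z2, sp_pos a1 (sp_pos x1 x3 y3) z3,
    sp_mod a1 (sp_mod x1 x4 y4) z4, ?_, ?_, ?_⟩
  · intro r hr h
    rcases sp_dvd a1 hr h with h | h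
    · rcases sp_dvd x1 hr h with h | h
      · exact x5 r hr h
      · exact y5 r hr h
    · exact z5 r hr h
  · intro r hr h
    rcases sp_dvd a2 hr h with h | h
    · rcases sp_dvd x2 hr h with h | h
      · exact x6 r hr h
      · exact y6 r hr h
    · exact z6 r hr h
  · intro p hp
    have hpp := Nat.prime_of_mem_primeFactors hp
    obtain ⟨e1, e2⟩ := sp_dv a1 z1 p hpp
    obtain ⟨e3, e4⟩ := sp_dv a2 z2 p hpp
    obtain ⟨f1, f2⟩ := sp_dv x1 y1 p hpp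
    obtain ⟨f3, f4⟩ := sp_dv x2 y2 p hpp
    show L p (dv p (sp (sp x.1 y.1) z.1)) (dv p (sp (sp x.2 y.2) z.2))
      (sgn p (sp (sp x.1 y.1) z.1)) (sgn p (sp (sp x.2 y.2) z.2))
    rw [e1, e2, e3, e4, f1, f2, f3, f4]
    have h3 := (hX p hp).2 _ _ _ _ _ _ _ _ ((hX p hp).2 _ _ _ _ _ _ _ _ (x7 p hp) (y7 p hp))
      (z7 p hp)
    have h4 : xor (xor (xor (sgn p x.2) (sg0 p q1)) (xor (sgn p y.2) (sg0 p q2)))
        (xor (sgn p z.2) (sg0 p q3)) = xor (xor (sgn p x.2) (sgn p y.2)) (sgn p z.2) := by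
      have h5 := hq p hp
      revert h5
      generalize sg0 p q1 = a
      generalize sg0 p q2 = b
      generalize sg0 p q3 = c
      generalize sgn p x.2 = d
      generalize sgn p y.2 = e
      generalize sgn p z.2 = f
      revert a b c d e f
      decide
    rw [h4] at h3
    exact h3

/-- the product formula for two solutions at different primes -/
lemma sol_pair {M q1 q2 : ℕ} {L : LC} (hM : M ≠ 0) (hodd : Odd M)
    (hI : ∀ p ∈ M.primeFactors, Iso p (L p)) (hq1 : q1.Prime) (hq2 : q2.Prime) (h12 : q1 ≠ q2)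
    (h1M : ¬ q1 ∣ 2 * M) (h2M : ¬ q2 ∣ 2 * M) {x y : ℤ × ℤ} (hx : SolT M L q1 x)
    (hy : SolT M L q2 y) : sgn q1 y.1 = sgn q2 x.1 := by
  classical
  obtain ⟨x1, x2, x3, x4, x5, x6, x7⟩ := hx
  obtain ⟨y1, y2, y3, y4, y5, y6, y7⟩ := hy
  have n1 : ∀ q : ℕ, q.Prime → ¬ q ∣ 2 * M → ¬ (q : ℤ) ∣ x.1 ∧ ¬ (q : ℤ) ∣ x.2 ∧
      ¬ (q : ℤ) ∣ y.1 ∧ ¬ (q : ℤ) ∣ y.2 := fun q hq h =>
    ⟨fun h' => h ((x5 q hq h').mul_left _), fun h' => h (x6 q hq h'),
      fun h' => h ((y5 q hq h').mul_left _), fun h' => h (y6 q hq h')⟩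
  obtain ⟨a1, a2, a3, a4⟩ := n1 q1 hq1 h1M
  obtain ⟨b1, b2, b3, b4⟩ := n1 q2 hq2 h2M
  have sx := sq_mul_q hq1 x2 a2
  have sy := sq_mul_q hq2 y2 b4
  have hq1M : q1 ∉ M.primeFactors := fun h => h1M ((Nat.dvd_of_mem_primeFactors h).mul_left _)
  have hq2M : q2 ∉ M.primeFactors := fun h => h2M ((Nat.dvd_of_mem_primeFactors h).mul_left _)
  have hq12 : q1 ∉ insert q2 M.primeFactors := by
    rw [mem_insert, not_or]
    exact ⟨h12, hq1M⟩
  have q1n2 : q1 ≠ 2 := by rintro rfl; exact h1M (dvd_mul_right _ _)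
  have q2n2 : q2 ≠ 2 := by rintro rfl; exact h2M (dvd_mul_right _ _)
  have P := prodS (d := (x.1, (q1 : ℤ) * x.2)) (e := (y.1, (q2 : ℤ) * y.2)) x1 sx x3 x4 y1 sy
    y3 y4 (insert q1 (insert q2 M.primeFactors)) (by
      intro q hq
      rw [mem_insert, mem_insert] at hq
      rcases hq with rfl | rfl | hq
      · exact ⟨hq1, q1n2⟩
      · exact ⟨hq2, q2n2⟩
      · exact odd_pf hodd hq) (by
      intro q hq hq' h
      rw [mem_insert, mem_insert]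
      rcases h with h | h
      · exact Or.inr (Or.inr (Nat.mem_primeFactors.2 ⟨hq, x5 q hq h, hM⟩))
      · rcases (Nat.prime_iff_prime_int.1 hq).dvd_or_dvd h with h | h
        · exact Or.inl ((Nat.prime_dvd_prime_iff_eq hq hq1).1 (by exact_mod_cast h))
        · exact Or.inr (Or.inr (Nat.mem_primeFactors.2 ⟨hq, two_dvd_elim hq hq' (x6 q hq h), hM⟩)))
      (by
      intro q hq hq' h
      rw [mem_insert, mem_insert]
      rcases h with h | h
      · exact Or.inr (Or.inr (Nat.mem_primeFactors.2 ⟨hq, y5 q hq h, hM⟩))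
      · rcases (Nat.prime_iff_prime_int.1 hq).dvd_or_dvd h with h | h
        · exact Or.inr (Or.inl ((Nat.prime_dvd_prime_iff_eq hq hq2).1 (by exact_mod_cast h)))
        · exact Or.inr (Or.inr (Nat.mem_primeFactors.2 ⟨hq, two_dvd_elim hq hq' (y6 q hq h), hM⟩)))
  rw [prod_insert hq12, prod_insert hq2M] at P
  have hrest : ∏ q ∈ M.primeFactors, sg (xor (hsb q x.1 ((q2 : ℤ) * y.2))
      (hsb q y.1 ((q1 : ℤ) * x.2))) = 1 := by
    refine prod_eq_one fun q hq => ?_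
    have hqp := Nat.prime_of_mem_primeFactors hq
    have ne1 : q ≠ q1 := by rintro rfl; exact hq1M hq
    have ne2 : q ≠ q2 := by rintro rfl; exact hq2M hq
    obtain ⟨e1, e2⟩ := mul_q hqp hq1 ne1 x2 sx
    obtain ⟨f1, f2⟩ := mul_q hqp hq2 ne2 y2 sy
    rw [hsb_eq, hsb_eq, e1, e2, f1, f2, hI q hq _ _ _ _ _ _ _ _ (x7 q hq) (y7 q hq)]
    rfl
  simp only at P
  rw [hrest, mul_one] at P
  have c1 : dv q1 ((q1 : ℤ) * x.2) = true := dv_true (dvd_mul_right _ _)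
  have c2 : dv q2 ((q2 : ℤ) * y.2) = true := dv_true (dvd_mul_right _ _)
  have c3 : dv q1 ((q2 : ℤ) * y.2) = false := by
    rw [(mul_q hq1 hq2 h12 y2 sy).1, dv_false a4]
  have c4 : dv q2 ((q1 : ℤ) * x.2) = false := by
    rw [(mul_q hq2 hq1 h12.symm x2 sx).1, dv_false b2]
  unfold hsb at P
  rw [dv_false a1, dv_false a3, dv_false b1, dv_false b3, c1, c2, c3, c4] at P
  simp only [Bool.false_and, Bool.true_and, Bool.xor_false, Bool.false_xor] at P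
  revert P
  generalize sgn q1 y.1 = a
  generalize sgn q2 x.1 = b
  revert a b
  decide

/-- reciprocity for the first coordinates -/
lemma recip {M q1 q2 q3 : ℕ} {x : ℤ} (hx : Squarefree x) (h0 : 0 < x)
    (h8 : x % 8 = 1) (hs : ∀ r : ℕ, r.Prime → (r : ℤ) ∣ x → r ∣ M) (hq1 : q1.Prime)
    (hq2 : q2.Prime) (hq3 : q3.Prime) (h1M : ¬ q1 ∣ 2 * M) (h2M : ¬ q2 ∣ 2 * M)
    (h3M : ¬ q3 ∣ 2 * M) (h3 : q3 ≡ q1 * q2 [MOD M]) :
    sgn q3 x = xor (sgn q1 x) (sgn q2 x) := by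
  have hdvd : x.natAbs ∣ M := natAbs_dvd hx hs
  lift x to ℕ using h0.le
  rw [Int.natAbs_natCast] at hdvd
  have hx4 : x % 4 = 1 := by omega
  have hodd : Odd x := Nat.odd_iff.2 (by omega)
  have n1 : ∀ q : ℕ, q.Prime → ¬ q ∣ 2 * M → ¬ (q : ℤ) ∣ (x : ℤ) ∧ Odd q := by
    intro q hq h
    refine ⟨fun h' => h ((hs q hq h').mul_left _), hq.odd_of_ne_two ?_⟩
    rintro rfl
    exact h (dvd_mul_right _ _)
  have J : ∀ q : ℕ, q.Prime → ¬ q ∣ 2 * M → sg (sgn q (x : ℤ)) = J(q | x) := by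
    intro q hq h
    obtain ⟨h1, h2⟩ := n1 q hq h
    rw [sgn_ndvd hq h1, sg_sg0 hq h1, jacobiSym.quadratic_reciprocity_one_mod_four hx4 h2]
  have e3 : J(q3 | x) = J(q1 | x) * J(q2 | x) := by
    rw [← jacobiSym.mul_left, jacobiSym.mod_left (q3 : ℤ), jacobiSym.mod_left ((q1 : ℤ) * q2)]
    congr 1
    have h4 := h3.of_dvd hdvd
    have h5 : ((q3 : ℕ) : ℤ) ≡ ((q1 * q2 : ℕ) : ℤ) [ZMOD (x : ℤ)] := (Int.natCast_modEq_iff).2 h4
    rw [Nat.cast_mul] at h5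
    exact h5
  rw [← J q3 hq3 h3M, ← J q1 hq1 h1M, ← J q2 hq2 h2M] at e3
  revert e3
  generalize sgn q1 (x : ℤ) = a
  generalize sgn q2 (x : ℤ) = b
  generalize sgn q3 (x : ℤ) = c
  revert a b c
  decide

/-- symbols of the primes `q` at the primes of `M` -/
lemma sg0_mul {M q1 q2 q3 : ℕ} (hq1 : q1.Prime) (hq2 : q2.Prime) (hq3 : q3.Prime)
    (h1M : ¬ q1 ∣ 2 * M) (h2M : ¬ q2 ∣ 2 * M) (h3M : ¬ q3 ∣ 2 * M)
    (h3 : q3 ≡ q1 * q2 [MOD M]) : ∀ p ∈ M.primeFactors,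
    xor (xor (sg0 p q1) (sg0 p q2)) (sg0 p q3) = false := by
  intro p hp
  have hpp := Nat.prime_of_mem_primeFactors hp
  have hpM := Nat.dvd_of_mem_primeFactors hp
  have n : ∀ q : ℕ, q.Prime → ¬ q ∣ 2 * M → ¬ (p : ℤ) ∣ (q : ℤ) := by
    intro q hq h
    apply ndvd_prime hpp hq
    rintro rfl
    exact h (hpM.mul_left _)
  have e3 : J(q3 | p) = J(q1 | p) * J(q2 | p) := by
    rw [← jacobiSym.mul_left, jacobiSym.mod_left (q3 : ℤ), jacobiSym.mod_left ((q1 : ℤ) * q2)]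
    congr 1
    have h4 := h3.of_dvd hpM
    have h5 : ((q3 : ℕ) : ℤ) ≡ ((q1 * q2 : ℕ) : ℤ) [ZMOD (p : ℤ)] := (Int.natCast_modEq_iff).2 h4
    rw [Nat.cast_mul] at h5
    exact h5
  rw [← sg_sg0 hpp (n q1 hq1 h1M), ← sg_sg0 hpp (n q2 hq2 h2M), ← sg_sg0 hpp (n q3 hq3 h3M)] at e3
  revert e3
  generalize sg0 p q1 = a
  generalize sg0 p q2 = b
  generalize sg0 p q3 = c
  revert a b c
  decide

/-- the symbols of the third solution -/
lemma sol_third {M q1 q2 q3 : ℕ} {L : LC} (hM : M ≠ 0) (hodd : Odd M)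
    (hX : ∀ p ∈ M.primeFactors, XC (L p)) (hI : ∀ p ∈ M.primeFactors, Iso p (L p))
    (hV : VG M L = {(1, 1)}) (hq1 : q1.Prime) (hq2 : q2.Prime) (hq3 : q3.Prime)
    (h1M : ¬ q1 ∣ 2 * M) (h2M : ¬ q2 ∣ 2 * M) (h3M : ¬ q3 ∣ 2 * M)
    (h3 : q3 ≡ q1 * q2 [MOD M]) {x y z : ℤ × ℤ} (hx : SolT M L q1 x) (hy : SolT M L q2 y)
    (hz : SolT M L q3 z) : (q1 = q2 → sgn q3 z.1 = false) ∧
      (q1 ≠ q2 → sgn q3 z.1 = xor (sgn q1 x.1) (sgn q2 y.1)) := by
  have hr := recip hz.1 hz.2.2.1 hz.2.2.2.1 hz.2.2.2.2.1 hq1 hq2 hq3 h1M h2M h3M h3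
  refine ⟨?_, ?_⟩
  · rintro rfl
    rw [hr, Bool.xor_self]
  · intro h12
    have h4 := sol_mul3 hX (sg0_mul hq1 hq2 hq3 h1M h2M h3M h3) hx hy hz
    rw [hV, Set.mem_singleton_iff] at h4
    unfold sp2 at h4
    rw [Prod.mk.injEq] at h4
    have h5 : sp x.1 y.1 = z.1 := eq_of_sp_one (sp_sqf hx.1 hy.1) h4.1
    rw [hr, ← h5, (sp_dv hx.1 hy.1 q1 hq1).2, (sp_dv hx.1 hy.1 q2 hq2).2,
      sol_pair hM hodd hI hq1 hq2 h12 h1M h2M hx hy]
    generalize sgn q1 x.1 = a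
    generalize sgn q2 y.1 = b
    generalize sgn q2 x.1 = c
    revert a b c
    decide

/-- the data of a prime with two bad signs -/
lemma ty_data {s : Fin 3 → ℕ} {E : Finset ℕ} {q : ℕ} (hs : Squarefree (∏ j, s j))
    (hodd : Odd (∏ j, s j)) (h17 : ¬ 17 ∣ ∏ j, s j) (hE : E ⊆ (∏ j, s j).primeFactors)
    (hV0 : V0 s E = {(1, 1)}) (hV17 : V17 s E = {(1, 1)}) (hq : q.Prime)
    (hqs : ¬ q ∣ 34 * ∏ j, s j) (hT : Ty s E q) :
    ∃ x y, SolT (∏ j, s j) (LF s E) q x ∧ SolT (17 * ∏ j, s j) (L17 s E) q y ∧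
      xor (sgn q x.1) (xor (sgn q y.1) (sg0 q 17)) = true := by
  classical
  have hq2 : q ≠ 2 := by
    rintro rfl
    exact hqs (Dvd.dvd.mul_right (by norm_num) _)
  have hq17 : q ≠ 17 := by
    rintro rfl
    exact hqs (Dvd.dvd.mul_right (by norm_num) _)
  have hqm : ¬ q ∣ ∏ j, s j := fun h => hqs (h.mul_left _)
  have hM : 17 * ∏ j, s j ≠ 0 := mul_ne_zero (by norm_num) hs.ne_zero
  have hqM : ¬ q ∣ 17 * ∏ j, s j := by
    intro h
    rcases (hq.dvd_mul).1 h with h | h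
    · exact hq17 ((Nat.prime_dvd_prime_iff_eq hq (by norm_num)).1 h)
    · exact hqm h
  have hqE : q ∉ E := fun h => hqm (Nat.dvd_of_mem_primeFactors (hE h))
  have hE2 : insert q E ∩ (∏ j, s j).primeFactors = E ∩ (∏ j, s j).primeFactors := by
    rw [insert_inter_of_notMem]
    exact fun h => hqm (Nat.dvd_of_mem_primeFactors h)
  have hE3 : ∀ F : Finset ℕ, F = E ∨ F = insert q E →
      F ∩ (∏ j, s j).primeFactors = E ∩ (∏ j, s j).primeFactors := by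
    rintro F (rfl | rfl)
    · rfl
    · exact hE2
  have hpm' : q ∈ (∏ l, Function.update s 2 (s 2 * q) l).primeFactors := by
    rw [upd_prod, Nat.mem_primeFactors]
    exact ⟨hq, dvd_mul_left _ _, mul_ne_zero hs.ne_zero hq.ne_zero⟩
  have h17' : sg0 q 17 = decide (jacobiSym 17 q = -1) := rfl
  -- the solution from V0
  have A : ∀ F : Finset ℕ, F = E ∨ F = insert q E →
      V0 (Function.update s 2 (s 2 * q)) F ≠ {(1, 1)} →
      ∃ x, SolT (∏ j, s j) (LF s E) q x ∧ sgn q x.1 = decide (q ∈ F) := by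
    intro F hF hne
    have hex : ∃ d ∈ V0 (Function.update s 2 (s 2 * q)) F, d ≠ (1, 1) := by
      by_contra h
      push Not at h
      apply hne
      ext d
      rw [Set.mem_singleton_iff]
      exact ⟨h d, by rintro rfl; exact V0_one _ _⟩
    obtain ⟨d, hd, hd1⟩ := hex
    rw [V0_upd] at hd
    refine sol_of_ram hs.ne_zero hq hqm (downLF (hE3 F hF)) newLF hd ?_
    intro h
    have h3 := VG_restrict hs.ne_zero hq (downLF (hE3 F hF)) hd h.1 h.2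
    rw [← V0_eq, hV0, Set.mem_singleton_iff] at h3
    exact hd1 h3
  have B : ∀ F : Finset ℕ, F = E ∨ F = insert q E →
      V17 (Function.update s 2 (s 2 * q)) F ≠ {(1, 1)} →
      ∃ x, SolT (17 * ∏ j, s j) (L17 s E) q x ∧ sgn q x.1 =
        decide (q ∈ tw (∏ l, Function.update s 2 (s 2 * q) l) F) := by
    intro F hF hne
    have hex : ∃ d ∈ V17 (Function.update s 2 (s 2 * q)) F, d ≠ (1, 1) := by
      by_contra h
      push Not at h
      apply hne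
      ext d
      rw [Set.mem_singleton_iff]
      exact ⟨h d, by rintro rfl; exact VG_one (fun q _ => xcL17 _ _ q)⟩
    obtain ⟨d, hd, hd1⟩ := hex
    rw [V17_upd] at hd
    refine sol_of_ram hM hq hqM (down17 hs.ne_zero hq (hE3 F hF)) (new17 hq17) hd ?_
    intro h
    have h3 := VG_restrict hM hq (down17 hs.ne_zero hq (hE3 F hF)) hd h.1 h.2
    rw [← V17_eq, hV17, Set.mem_singleton_iff] at h3
    exact hd1 h3
  have twF : ∀ F : Finset ℕ, decide (q ∈ tw (∏ l, Function.update s 2 (s 2 * q) l) F) =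
      xor (decide (q ∈ F)) (sg0 q 17) := by
    intro F
    rw [h17']
    have e : (q ∈ tw (∏ l, Function.update s 2 (s 2 * q) l) F) ↔
        ¬ (q ∈ F ↔ jacobiSym 17 q = -1) := by
      unfold tw
      rw [mem_filter]
      simp only [hpm', true_and]
    by_cases h1 : q ∈ F <;> by_cases h2 : jacobiSym 17 q = -1 <;> simp [e, h1, h2]
  -- NG
  have hNG := NG s E q 2 hs hodd h17 hE hq hq2 hq17 hqm
  have N0 : ¬ (V0 (Function.update s 2 (s 2 * q)) E ≠ {(1, 1)} ∧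
      V0 (Function.update s 2 (s 2 * q)) (insert q E) ≠ {(1, 1)}) := by
    rintro ⟨h1, h2⟩
    rcases hNG.1 with h | h
    · apply h1
      rw [hV0] at h
      exact Set.Subset.antisymm h (Set.singleton_subset_iff.2 (V0_one _ _))
    · apply h2
      rw [hV0] at h
      exact Set.Subset.antisymm h (Set.singleton_subset_iff.2 (V0_one _ _))
  have N17 : ¬ (V17 (Function.update s 2 (s 2 * q)) E ≠ {(1, 1)} ∧
      V17 (Function.update s 2 (s 2 * q)) (insert q E) ≠ {(1, 1)}) := by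
    rintro ⟨h1, h2⟩
    rcases hNG.2.1 with h | h
    · apply h1
      rw [hV17] at h
      exact Set.Subset.antisymm h (Set.singleton_subset_iff.2 (VG_one (fun q _ => xcL17 _ _ q)))
    · apply h2
      rw [hV17] at h
      exact Set.Subset.antisymm h (Set.singleton_subset_iff.2 (VG_one (fun q _ => xcL17 _ _ q)))
  obtain ⟨T1, T2⟩ := hT
  have hfin : ∀ F F' : Finset ℕ, (F = E ∧ F' = insert q E) ∨ (F = insert q E ∧ F' = E) →
      V0 (Function.update s 2 (s 2 * q)) F ≠ {(1, 1)} →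
      V17 (Function.update s 2 (s 2 * q)) F' ≠ {(1, 1)} → ∃ x y,
      SolT (∏ j, s j) (LF s E) q x ∧ SolT (17 * ∏ j, s j) (L17 s E) q y ∧
      xor (sgn q x.1) (xor (sgn q y.1) (sg0 q 17)) = true := by
    intro F F' hF h1 h2
    obtain ⟨x, hx, hx'⟩ := A F (hF.imp (fun h => h.1) (fun h => h.1)) h1
    obtain ⟨y, hy, hy'⟩ := B F' (hF.symm.imp (fun h => h.2) (fun h => h.2)) h2
    refine ⟨x, y, hx, hy, ?_⟩
    rw [hx', hy', twF]
    have e1 : decide (q ∈ E) = false := decide_eq_false hqE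
    have e2 : decide (q ∈ insert q E) = true := decide_eq_true (mem_insert_self _ _)
    rcases hF with ⟨rfl, rfl⟩ | ⟨rfl, rfl⟩
    · rw [e1, e2]
      generalize sg0 q 17 = a
      revert a; decide
    · rw [e1, e2]
      generalize sg0 q 17 = a
      revert a; decide
  rcases T1 with h1 | h1
  · rcases T2 with h2 | h2
    · exact absurd ⟨h1, h2⟩ N0
    · exact hfin E (insert q E) (Or.inl ⟨rfl, rfl⟩) h1 h2
  · rcases T2 with h2 | h2
    · exact hfin (insert q E) E (Or.inr ⟨rfl, rfl⟩) h2 h1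
    · exact absurd ⟨h1, h2⟩ N17

theorem TYPE : St_TYPE := by
  intro s E hs hodd h17 hE hV0 hV17 q1 q2 q3 hq1 hq2 hq3 h1 h2 h3 h123 hT
  obtain ⟨T1, T2, T3⟩ := hT
  obtain ⟨x1, y1, hx1, hy1, e1⟩ := ty_data hs hodd h17 hE hV0 hV17 hq1 h1 T1
  obtain ⟨x2, y2, hx2, hy2, e2⟩ := ty_data hs hodd h17 hE hV0 hV17 hq2 h2 T2
  obtain ⟨x3, y3, hx3, hy3, e3⟩ := ty_data hs hodd h17 hE hV0 hV17 hq3 h3 T3
  have hM : 17 * ∏ j, s j ≠ 0 := mul_ne_zero (by norm_num) hs.ne_zero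
  have ho : Odd (17 * ∏ j, s j) := Odd.mul (by decide) hodd
  have c1 : ∀ q : ℕ, ¬ q ∣ 34 * ∏ j, s j → ¬ q ∣ 2 * ∏ j, s j := by
    intro q h h'
    apply h
    have : 34 * ∏ j, s j = 17 * (2 * ∏ j, s j) := by ring
    rw [this]
    exact h'.mul_left _
  have c2 : ∀ q : ℕ, ¬ q ∣ 34 * ∏ j, s j → ¬ q ∣ 2 * (17 * ∏ j, s j) := by
    intro q h h'
    apply h
    have : 34 * ∏ j, s j = 2 * (17 * ∏ j, s j) := by ring
    rw [this]
    exact h'
  have m1 : q3 ≡ q1 * q2 [MOD ∏ j, s j] := h123.of_dvd (dvd_mul_left _ _)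
  have m2 : q3 ≡ q1 * q2 [MOD 17 * ∏ j, s j] := h123.of_dvd ⟨8, by ring⟩
  have m3 : q3 ≡ q1 * q2 [MOD 17] := h123.of_dvd ⟨8 * ∏ j, s j, by ring⟩
  have R1 := sol_third hs.ne_zero hodd (fun p _ => xcLF s E p) (fun p hp => isoLF hp) hV0 hq1 hq2
    hq3 (c1 q1 h1) (c1 q2 h2) (c1 q3 h3) m1 hx1 hx2 hx3
  have R2 := sol_third hM ho (fun p _ => xcL17 s E p) (fun p hp => isoL17 hp) hV17 hq1 hq2
    hq3 (c2 q1 h1) (c2 q2 h2) (c2 q3 h3) m2 hy1 hy2 hy3
  -- the symbols of 17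
  have n17 : ∀ q : ℕ, q.Prime → ¬ q ∣ 34 * ∏ j, s j → ¬ (q : ℤ) ∣ 17 ∧ Odd q := by
    intro q hq h
    refine ⟨?_, hq.odd_of_ne_two ?_⟩
    · intro h'
      have : q ∣ 17 := by exact_mod_cast h'
      exact h (Dvd.dvd.mul_right (this.trans (by norm_num)) _)
    · rintro rfl
      exact h (Dvd.dvd.mul_right (by norm_num) _)
  have J : ∀ q : ℕ, q.Prime → ¬ q ∣ 34 * ∏ j, s j → sg (sg0 q 17) = J(q | 17) := by
    intro q hq h
    obtain ⟨k1, k2⟩ := n17 q hq h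
    rw [sg_sg0 hq k1]
    exact jacobiSym.quadratic_reciprocity_one_mod_four (a := 17) (by norm_num) k2
  have e17 : J(q3 | 17) = J(q1 | 17) * J(q2 | 17) := by
    rw [← jacobiSym.mul_left, jacobiSym.mod_left (q3 : ℤ), jacobiSym.mod_left ((q1 : ℤ) * q2)]
    congr 1
    have h5 : ((q3 : ℕ) : ℤ) ≡ ((q1 * q2 : ℕ) : ℤ) [ZMOD ((17 : ℕ) : ℤ)] :=
      (Int.natCast_modEq_iff).2 m3
    rw [Nat.cast_mul] at h5
    exact h5
  rw [← J q1 hq1 h1, ← J q2 hq2 h2, ← J q3 hq3 h3] at e17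
  have e17' : sg0 q3 17 = xor (sg0 q1 17) (sg0 q2 17) := by
    revert e17
    generalize sg0 q1 17 = a
    generalize sg0 q2 17 = b
    generalize sg0 q3 17 = c
    revert a b c
    decide
  by_cases h12 : q1 = q2
  · rw [R1.1 h12, R2.1 h12, e17', h12, Bool.xor_self] at e3
    exact absurd e3 (by decide)
  · rw [R1.2 h12, R2.2 h12, e17'] at e3
    revert e1 e2 e3
    generalize sgn q1 x1.1 = a1
    generalize sgn q1 y1.1 = a2
    generalize sg0 q1 17 = a3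
    generalize sgn q2 x2.1 = b1
    generalize sgn q2 y2.1 = b2
    generalize sg0 q2 17 = b3
    revert a1 a2 a3 b1 b2 b3
    decide

end Pool.Agent.Y448.RZ
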