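import Pool.Agent.Y448.RZ.Gen

/-!
# Project RZ: V17N, KILL17, NG
-/

set_option autoImplicit false

namespace Pool.Agent.Y448.RZ

open Finset Pool.Agent.W262.RK Pool.Agent.W307.RT Pool.Agent.W307.RS Pool.Agent.W307.SE
  Pool.Agent.W307.FK Pool.Agent.W214.RK2 Pool.Agent.Y667.RP Pool.Agent.Y667.RZ

lemma V0_eq (s : Fin 3 → ℕ) (E : Finset ℕ) : V0 s E = VG (∏ j, s j) (LF s E) := rfl

lemma V17_eq (s : Fin 3 → ℕ) (E : Finset ℕ) : V17 s E = VG (17 * ∏ j, s j) (L17 s E) := rfl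

lemma sg17 : sg0 17 (-1) = false := by
  unfold sg0
  rw [decide_eq_false_iff_not]
  have : jacobiSym (-1) 17 = 1 := by norm_num
  rw [this]
  norm_num

lemma isoLF {s : Fin 3 → ℕ} {E : Finset ℕ} {q : ℕ} (hq : q ∈ (∏ j, s j).primeFactors) :
    Iso q (LF s E q) := by
  intro v w h g v' w' h' g' h1 h2
  obtain ⟨l, -, hl⟩ := ((Nat.prime_of_mem_primeFactors hq).prime.dvd_finsetProd_iff _).1
    (Nat.dvd_of_mem_primeFactors hq)
  exact iso (h1 l hl) (h2 l hl)

lemma xc17 : XC (fun v _ h g => h = false ∧ g = v) := by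
  refine ⟨⟨rfl, rfl⟩, ?_⟩
  rintro a b c d a' b' c' d' ⟨rfl, rfl⟩ ⟨rfl, rfl⟩
  exact ⟨rfl, rfl⟩

lemma xcL17 (s : Fin 3 → ℕ) (E : Finset ℕ) (q : ℕ) : XC (L17 s E q) := by
  by_cases h : q = 17
  · subst h
    refine ⟨?_, ?_⟩
    · unfold L17
      rw [if_pos rfl]
      exact xc17.1
    · intro a b c d a' b' c' d' h1 h2
      unfold L17 at h1 h2 ⊢
      rw [if_pos rfl] at h1 h2 ⊢
      exact xc17.2 a b c d a' b' c' d' h1 h2
  · refine ⟨?_, ?_⟩
    · unfold L17
      rw [if_neg h]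
      exact (xcLF s _ q).1
    · intro a b c d a' b' c' d' h1 h2
      unfold L17 at h1 h2 ⊢
      rw [if_neg h] at h1 h2 ⊢
      exact (xcLF s _ q).2 a b c d a' b' c' d' h1 h2

lemma pf17 {m q : ℕ} (hq : q ∈ (17 * m).primeFactors) (h : q ≠ 17) : q ∈ m.primeFactors := by
  rw [Nat.mem_primeFactors] at hq ⊢
  obtain ⟨h1, h2, h3⟩ := hq
  refine ⟨h1, ?_, fun h0 => h3 (by rw [h0])⟩
  rcases (h1.dvd_mul).1 h2 with h4 | h4
  · exact absurd ((Nat.prime_dvd_prime_iff_eq h1 (by norm_num)).1 h4) h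
  · exact h4

lemma isoL17 {s : Fin 3 → ℕ} {E : Finset ℕ} {q : ℕ} (hq : q ∈ (17 * ∏ j, s j).primeFactors) :
    Iso q (L17 s E q) := by
  by_cases h : q = 17
  · subst h
    intro v w h g v' w' h' g' h1 h2
    unfold L17 at h1 h2
    rw [if_pos rfl] at h1 h2
    obtain ⟨rfl, rfl⟩ := h1
    obtain ⟨rfl, rfl⟩ := h2
    rw [sg17]
    revert g w g' w'
    decide
  · intro v w h' g v' w' h'' g' h1 h2
    unfold L17 at h1 h2
    rw [if_neg h] at h1 h2
    exact isoLF (pf17 hq h) _ _ _ _ _ _ _ _ h1 h2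

section upd

variable {s : Fin 3 → ℕ} {j : Fin 3} {p : ℕ} {E E' : Finset ℕ}

lemma mem_iff_of_inter {m : ℕ} (hE : E' ∩ m.primeFactors = E ∩ m.primeFactors) {q : ℕ}
    (hq : q ∈ m.primeFactors) : q ∈ E' ↔ q ∈ E := by
  have : q ∈ E' ∩ m.primeFactors ↔ q ∈ E ∩ m.primeFactors := by rw [hE]
  rw [mem_inter, mem_inter] at this
  exact ⟨fun h => (this.1 ⟨h, hq⟩).1, fun h => (this.2 ⟨h, hq⟩).1⟩

lemma tw_iff (hs : (∏ j, s j) ≠ 0) (hp : p.Prime)
    (hE : E' ∩ (∏ j, s j).primeFactors = E ∩ (∏ j, s j).primeFactors) {q : ℕ}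
    (hq : q ∈ (∏ j, s j).primeFactors) :
    q ∈ tw (∏ l, Function.update s j (s j * p) l) E' ↔ q ∈ tw (∏ j, s j) E := by
  unfold tw
  rw [mem_filter, mem_filter, upd_prod, mem_iff_of_inter hE hq]
  constructor
  · rintro ⟨_, h⟩
    exact ⟨hq, h⟩
  · rintro ⟨_, h⟩
    refine ⟨?_, h⟩
    rw [Nat.mem_primeFactors] at hq ⊢
    exact ⟨hq.1, hq.2.1.mul_right _, mul_ne_zero hs hp.ne_zero⟩

lemma downLF (hE : E' ∩ (∏ j, s j).primeFactors = E ∩ (∏ j, s j).primeFactors) :
    ∀ q ∈ (∏ j, s j).primeFactors, ∀ v w h g,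
      LF (Function.update s j (s j * p)) E' q v w h g → LF s E q v w h g :=
  fun _ hq _ _ _ _ h => LF_congr (mem_iff_of_inter hE hq) (LF_down h)

lemma down17 (hs : (∏ j, s j) ≠ 0) (hp : p.Prime)
    (hE : E' ∩ (∏ j, s j).primeFactors = E ∩ (∏ j, s j).primeFactors) :
    ∀ q ∈ (17 * ∏ j, s j).primeFactors, ∀ v w h g,
      L17 (Function.update s j (s j * p)) E' q v w h g → L17 s E q v w h g := by
  intro q hq v w h g hL
  unfold L17 at hL ⊢
  split_ifs at hL ⊢ with h17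
  · exact hL
  · exact LF_congr (tw_iff hs hp hE (pf17 hq h17)) (LF_down hL)

lemma newLF : ∀ v w h g, LF (Function.update s j (s j * p)) E' p v w h g →
    LR j (decide (p ∈ E')) v w h g := fun _ _ _ _ h => LF_new h

lemma new17 (h17 : p ≠ 17) : ∀ v w h g, L17 (Function.update s j (s j * p)) E' p v w h g →
    LR j (decide (p ∈ tw (∏ l, Function.update s j (s j * p) l) E')) v w h g := by
  intro v w h g hL
  unfold L17 at hL
  rw [if_neg h17] at hL
  exact LF_new hL

lemma V17_upd : V17 (Function.update s j (s j * p)) E' =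
    VG ((17 * ∏ j, s j) * p) (L17 (Function.update s j (s j * p)) E') := by
  rw [V17_eq, upd_prod, mul_assoc]

lemma V0_upd : V0 (Function.update s j (s j * p)) E' =
    VG ((∏ j, s j) * p) (LF (Function.update s j (s j * p)) E') := by
  rw [V0_eq, upd_prod]

end upd

/-- the type of a class -/
noncomputable def ty17 (d : ℤ × ℤ) : (Bool × Bool) × (Bool × Bool) :=
  ((decide (0 < d.2), dv 2 d.2), (dv 17 d.1, dv 17 d.2))

lemma ty17_sp {M : ℕ} {L : LC} {d d' : ℤ × ℤ} (hd : d ∈ VG M L) (hd' : d' ∈ VG M L)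
    (h : ty17 d = ty17 d') : 0 < sp d.2 d'.2 ∧ ¬ (2 : ℤ) ∣ sp d.2 d'.2 ∧
      ¬ (17 : ℤ) ∣ sp d.1 d'.1 ∧ ¬ (17 : ℤ) ∣ sp d.2 d'.2 := by
  obtain ⟨h1, h2, h3, h4, h5, h6, h7⟩ := hd
  obtain ⟨k1, k2, k3, k4, k5, k6, k7⟩ := hd'
  unfold ty17 at h
  simp only [Prod.mk.injEq, decide_eq_decide] at h
  obtain ⟨⟨e1, e2⟩, e3, e4⟩ := h
  refine ⟨?_, ?_, ?_, ?_⟩
  · obtain ⟨g, a', b', hg, f1, f2, f3, f4⟩ := sp_dec d.2 d'.2 h2
    rw [f4]
    have ha0 : a' ≠ 0 := by
      rintro rfl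
      rw [mul_zero] at f1
      exact h2.ne_zero f1
    have hb0 : b' ≠ 0 := by
      rintro rfl
      rw [mul_zero] at f2
      exact k2.ne_zero f2
    rw [f1, f2, mul_pos_iff_of_pos_left hg, mul_pos_iff_of_pos_left hg] at e1
    rcases lt_or_gt_of_ne ha0 with h | h
    · have : b' < 0 := by
        rcases lt_or_gt_of_ne hb0 with h' | h'
        · exact h'
        · have := e1.2 h'; omega
      exact mul_pos_of_neg_of_neg h this
    · exact mul_pos h (e1.1 h)
  · have := (sp_dv h2 k2 2 Nat.prime_two).1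
    rw [e2, Bool.xor_self] at this
    unfold dv at this
    rw [decide_eq_false_iff_not] at this
    exact_mod_cast this
  · have := (sp_dv h1 k1 17 (by norm_num)).1
    rw [e3, Bool.xor_self] at this
    unfold dv at this
    rw [decide_eq_false_iff_not] at this
    exact_mod_cast this
  · have := (sp_dv h2 k2 17 (by norm_num)).1
    rw [e4, Bool.xor_self] at this
    unfold dv at this
    rw [decide_eq_false_iff_not] at this
    exact_mod_cast this

theorem V17N : St_V17N := by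
  classical
  intro s E hs hodd h17
  set m := ∏ j, s j with hm
  set F : Finset (ℕ × ℕ) := (m.divisors ×ˢ m.divisors).filter (fun d : ℕ × ℕ =>
    ∀ p ∈ m.primeFactors, LF s (tw m E) p (dv p d.1) (dv p d.2) (sgn p d.1) (sgn p d.2)) with hF
  have hFcard : F.card = NL m (LF s (tw m E)) := by
    unfold NL
    rw [hF]
  have hX : ∀ q ∈ (17 * ∏ j, s j).primeFactors, XC (L17 s E q) := fun q _ => xcL17 s E q
  have hel : ∀ q : ℕ, q.Prime → q ≠ 17 → q ∣ 17 * m → q ∣ m := by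
    intro q hq h1 h2
    rcases (hq.dvd_mul).1 h2 with h3 | h3
    · exact absurd ((Nat.prime_dvd_prime_iff_eq hq (by norm_num)).1 h3) h1
    · exact h3
  have hFmem : ∀ d d' : ℤ × ℤ, d ∈ V17 s E → d' ∈ V17 s E → ty17 d = ty17 d' →
      ((sp d.1 d'.1).natAbs, (sp d.2 d'.2).natAbs) ∈ F := by
    intro d d' hd hd' ho
    obtain ⟨t1, t2, t3, t4⟩ := ty17_sp hd hd' ho
    obtain ⟨g1, g2, g3, g4, g5, g6, g7⟩ := VG_mul hX hd hd'
    rw [hF, mem_filter, mem_product, Nat.mem_divisors, Nat.mem_divisors]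
    simp only [sp2] at g1 g2 g3 g4 g5 g6 g7
    refine ⟨⟨⟨natAbs_dvd g1 ?_, hs.ne_zero⟩, ⟨natAbs_dvd g2 ?_, hs.ne_zero⟩⟩, ?_⟩
    · intro q hq hqd
      refine hel q hq ?_ (g5 q hq hqd)
      rintro rfl
      exact t3 (by exact_mod_cast hqd)
    · intro q hq hqd
      have h1 := g6 q hq hqd
      refine hel q hq ?_ ?_
      · rintro rfl
        exact t4 (by exact_mod_cast hqd)
      · refine two_dvd_elim hq ?_ h1
        rintro rfl
        exact t2 (by exact_mod_cast hqd)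
    · intro p hp
      have e1 : (((sp d.1 d'.1).natAbs : ℕ) : ℤ) = sp d.1 d'.1 := by omega
      have e2 : (((sp d.2 d'.2).natAbs : ℕ) : ℤ) = sp d.2 d'.2 := by omega
      simp only [e1, e2]
      have hp' : p ∈ (17 * m).primeFactors := by
        rw [Nat.mem_primeFactors] at hp ⊢
        exact ⟨hp.1, hp.2.1.mul_left _, mul_ne_zero (by norm_num) hp.2.2⟩
      have h1 := g7 p hp'
      unfold L17 at h1
      rw [if_neg] at h1
      · exact h1
      · rintro rfl
        exact h17 (Nat.dvd_of_mem_primeFactors hp)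
  have : Nonempty (V17 s E) := ⟨⟨(1, 1), VG_one hX⟩⟩
  obtain ⟨rep, hrep⟩ : ∃ rep : (Bool × Bool) × (Bool × Bool) → V17 s E,
      ∀ d : V17 s E, ty17 (rep (ty17 d.1)).1 = ty17 d.1 :=
    ⟨Function.invFun (fun d : V17 s E => ty17 d.1), fun d =>
      Function.invFun_eq (f := fun d : V17 s E => ty17 d.1) ⟨d, rfl⟩⟩
  obtain ⟨kk, hkk⟩ : ∃ kk : V17 s E → ((Bool × Bool) × (Bool × Bool)) × (ℕ × ℕ), ∀ d : V17 s E,
      kk d = (ty17 d.1, ((sp (rep (ty17 d.1)).1.1 d.1.1).natAbs,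
        (sp (rep (ty17 d.1)).1.2 d.1.2).natAbs)) := ⟨_, fun d => rfl⟩
  have hmem : ∀ d : V17 s E, kk d ∈ (univ : Finset ((Bool × Bool) × (Bool × Bool))) ×ˢ F := by
    intro d
    rw [hkk, mem_product]
    exact ⟨mem_univ _, hFmem _ _ (rep _).2 d.2 (hrep d)⟩
  have hinj : Function.Injective kk := by
    intro d e hde
    rw [hkk, hkk] at hde
    have h1 : ty17 d.1 = ty17 e.1 := congrArg Prod.fst hde
    have h2 := congrArg (fun z => z.2.1) hde
    have h3 := congrArg (fun z => z.2.2) hde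
    simp only at h2 h3
    rw [← h1] at h2 h3
    have hr := (rep (ty17 d.1)).2
    obtain ⟨a1, -⟩ := ty17_sp hr d.2 (hrep d)
    obtain ⟨b1, -⟩ := ty17_sp hr e.2 ((hrep d).trans h1)
    have p1 := sp_pos hr.1 hr.2.2.1 d.2.2.2.1
    have p2 := sp_pos hr.1 hr.2.2.1 e.2.2.2.1
    have c1 : sp (rep (ty17 d.1)).1.1 d.1.1 = sp (rep (ty17 d.1)).1.1 e.1.1 := by omega
    have c2 : sp (rep (ty17 d.1)).1.2 d.1.2 = sp (rep (ty17 d.1)).1.2 e.1.2 := by omega
    apply Subtype.ext
    apply Prod.ext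
    · exact sp_inj hr.1 d.2.1 e.2.1 c1
    · exact sp_inj hr.2.1 d.2.2.1 e.2.2.1 c2
  have hfin : Finite (V17 s E) := by
    exact Finite.of_injective
      (fun d : V17 s E => (⟨kk d, hmem d⟩ :
        {z // z ∈ (univ : Finset ((Bool × Bool) × (Bool × Bool))) ×ˢ F}))
      (fun d e hde => hinj (congrArg Subtype.val hde))
  refine ⟨Set.toFinite _, ?_⟩
  have hcard : (V17 s E).ncard ≤
      ((univ : Finset ((Bool × Bool) × (Bool × Bool))) ×ˢ F).card := by
    rw [← Nat.card_coe_set_eq]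
    have := Fintype.ofFinite (V17 s E)
    rw [Nat.card_eq_fintype_card, ← card_univ]
    exact card_le_card_of_injOn kk (fun d _ => hmem d) hinj.injOn
  refine hcard.trans ?_
  rw [card_product, hFcard]
  simp

theorem KILL17 : St_KILL17 := by
  intro s E E' w p j hs hodd h17 hw hp hp2 hp17 hps hE hphi
  have hM : 17 * ∏ j, s j ≠ 0 := mul_ne_zero (by norm_num) hs.ne_zero
  have ho : Odd (17 * ∏ j, s j) := Odd.mul (by decide) hodd
  have hpM : ¬ p ∣ 17 * ∏ j, s j := by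
    intro h
    rcases (hp.dvd_mul).1 h with h | h
    · exact hp17 ((Nat.prime_dvd_prime_iff_eq hp (by norm_num)).1 h)
    · exact hps h
  rw [V17_upd]
  exact KILLG hM ho hp hp2 hpM (fun q _ => xcL17 s E q) (fun q hq => isoL17 hq)
    (down17 hs.ne_zero hp hE) (new17 hp17) hw hphi (V17N s E hs hodd h17).1

theorem NG : St_NG := by
  classical
  intro s E p j hs hodd h17 hEs hp hp2 hp17 hps
  have hM : 17 * ∏ j, s j ≠ 0 := mul_ne_zero (by norm_num) hs.ne_zero
  have ho : Odd (17 * ∏ j, s j) := Odd.mul (by decide) hodd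
  have hpM : ¬ p ∣ 17 * ∏ j, s j := by
    intro h
    rcases (hp.dvd_mul).1 h with h | h
    · exact hp17 ((Nat.prime_dvd_prime_iff_eq hp (by norm_num)).1 h)
    · exact hps h
  have hpE : p ∉ E := fun h => hps (Nat.dvd_of_mem_primeFactors (hEs h))
  have hE1 : E ∩ (∏ j, s j).primeFactors = E ∩ (∏ j, s j).primeFactors := rfl
  have hE2 : insert p E ∩ (∏ j, s j).primeFactors = E ∩ (∏ j, s j).primeFactors := by
    rw [insert_inter_of_notMem]
    exact fun h => hps (Nat.dvd_of_mem_primeFactors h)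
  have hpm' : p ∈ (∏ l, Function.update s j (s j * p) l).primeFactors := by
    rw [upd_prod, Nat.mem_primeFactors]
    exact ⟨hp, dvd_mul_left _ _, mul_ne_zero hs.ne_zero hp.ne_zero⟩
  have t1 : p ∈ tw (∏ l, Function.update s j (s j * p) l) E ↔ jacobiSym 17 p = -1 := by
    unfold tw
    rw [mem_filter]
    simp only [hpm', hpE, true_and, false_iff, not_not]
  have t2 : p ∈ tw (∏ l, Function.update s j (s j * p) l) (insert p E) ↔
      ¬ jacobiSym 17 p = -1 := by
    unfold tw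
    rw [mem_filter]
    simp only [hpm', mem_insert_self, true_and, true_iff]
  refine ⟨?_, ?_, ?_⟩
  · rw [V0_upd, V0_upd]
    refine NG1 hs.ne_zero hodd hp hp2 hps (fun q hq => isoLF hq) (downLF hE1) (downLF hE2)
      (j := j) (neg := false) ?_ ?_
    · intro v w h g hL
      have := newLF v w h g hL
      rwa [decide_eq_false hpE] at this
    · intro v w h g hL
      have := newLF v w h g hL
      rwa [decide_eq_true (mem_insert_self p E)] at this
  · rw [V17_upd, V17_upd]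
    refine NG1 hM ho hp hp2 hpM (fun q hq => isoL17 hq) (down17 hs.ne_zero hp hE1)
      (down17 hs.ne_zero hp hE2) (j := j) (neg := decide (jacobiSym 17 p = -1)) ?_ ?_
    · intro v w h g hL
      have := new17 hp17 v w h g hL
      have e : decide (p ∈ tw (∏ l, Function.update s j (s j * p) l) E) =
        decide (jacobiSym 17 p = -1) := decide_eq_decide.2 t1
      rwa [e] at this
    · intro v w h g hL
      have := new17 hp17 v w h g hL
      have e : decide (p ∈ tw (∏ l, Function.update s j (s j * p) l) (insert p E)) =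
        !decide (jacobiSym 17 p = -1) := by
        rw [← decide_not]
        exact decide_eq_decide.2 t2
      rwa [e] at this
  · intro E' hE'
    have hE3 : E' ∩ (∏ j, s j).primeFactors = E ∩ (∏ j, s j).primeFactors := by
      rcases hE' with rfl | rfl
      · rfl
      · exact hE2
    refine ⟨?_, ?_⟩
    · rw [V0_upd]
      exact NG2 hs.ne_zero hp hp2 (fun q _ => xcLF s E q) (downLF hE3) newLF
        (V0N s E hs hodd).1
    · rw [V17_upd]
      exact NG2 hM hp hp2 (fun q _ => xcL17 s E q) (down17 hs.ne_zero hp hE3) (new17 hp17)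
        (V17N s E hs hodd h17).1

end Pool.Agent.Y448.RZ
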